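import Mathlib

set_option autoImplicit false

/-!
Free groups are conjugacy separable, by an abelian voltage cover of a cycle.
-/

namespace Pool.Agent.H18FS

variable {α : Type*}

/-- inverse letter -/
def iv (l : α × Bool) : α × Bool := (l.1, !l.2)

theorem iv_iv (l : α × Bool) : iv (iv l) = l := by
  simp [iv]

section core

variable [DecidableEq α] {n : ℕ} [NeZero n] (ℓ : ZMod n → α × Bool)

/-- one step -/
def stp (σ : α → Equiv.Perm (ZMod n)) (l : α × Bool) (x : ZMod n) : ZMod n :=
  if l.2 then σ l.1 x else (σ l.1).symm x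

theorem stp_iv (σ : α → Equiv.Perm (ZMod n)) (l : α × Bool) (x : ZMod n) :
    stp σ (iv l) (stp σ l x) = x := by
  obtain ⟨a, b⟩ := l
  cases b <;> simp [stp, iv]

theorem exists_sigma (hred : ∀ i, ℓ (i + 1) ≠ iv (ℓ i)) :
    ∃ σ : α → Equiv.Perm (ZMod n), ∀ i, stp σ (ℓ i) i = i + 1 := by
  have h : ∀ a : α, ∃ g : Equiv.Perm (ZMod n), (∀ i, ℓ i = (a, true) → g i = i + 1) ∧
      (∀ i, ℓ i = (a, false) → g (i + 1) = i) := by
    intro a
    let f : ZMod n → ZMod n := fun j => if ℓ j = (a, true) then j + 1 else j - 1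
    let s : Finset (ZMod n) := Finset.univ.filter
      (fun j => ℓ j = (a, true) ∨ ℓ (j - 1) = (a, false))
    have hinj : Set.InjOn f s := by
      intro j hj k hk hjk
      simp only [s, Finset.coe_filter, Finset.mem_univ, true_and, Set.mem_ofPred_eq] at hj hk
      simp only [f] at hjk
      by_cases h1 : ℓ j = (a, true)
      · by_cases h2 : ℓ k = (a, true)
        · simp only [if_pos h1, if_pos h2, add_left_inj] at hjk
          exact hjk
        · simp only [if_pos h1, if_neg h2] at hjk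
          exfalso
          have h3 : ℓ (k - 1) = (a, false) := hk.resolve_left h2
          rw [← hjk] at h3
          apply hred j
          rw [h3, h1]; rfl
      · by_cases h2 : ℓ k = (a, true)
        · simp only [if_neg h1, if_pos h2] at hjk
          exfalso
          have h3 : ℓ (j - 1) = (a, false) := hj.resolve_left h1
          rw [hjk] at h3
          apply hred k
          rw [h3, h2]; rfl
        · simp only [if_neg h1, if_neg h2, sub_left_inj] at hjk
          exact hjk
    obtain ⟨g, hg⟩ := Finset.exists_equiv_extend_of_card_eq (t := (Finset.univ : Finset (ZMod n)))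
      (by simp) (s := s) (f := f) (Finset.subset_univ _) hinj
    let g' : Equiv.Perm (ZMod n) := g.trans (Equiv.subtypeUnivEquiv (fun x => Finset.mem_univ x))
    have hg' : ∀ i ∈ s, g' i = f i := fun i hi => hg i hi
    refine ⟨g', ?_, ?_⟩
    · intro i hi
      rw [hg' i (by simp [s, hi])]
      simp only [f, if_pos hi]
    · intro i hi
      rw [hg' (i + 1) (by simp [s, hi])]
      have h1 : ℓ (i + 1) ≠ (a, true) := by
        intro h
        apply hred i
        rw [h, hi]; rfl
      simp only [f, if_neg h1, add_sub_cancel_right]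
  choose σ h1 h2 using h
  refine ⟨σ, ?_⟩
  intro i
  rcases hl : ℓ i with ⟨a, b⟩
  cases b with
  | true =>
    show (if true = true then σ a i else (σ a).symm i) = i + 1
    rw [if_pos rfl]
    exact h1 a i hl
  | false =>
    show (if false = true then σ a i else (σ a).symm i) = i + 1
    rw [if_neg (by simp), Equiv.symm_apply_eq]
    exact (h2 a i hl).symm

variable (σ : α → Equiv.Perm (ZMod n))

/-- signed crossing vector of one step -/
def vol (l : α × Bool) (y : ZMod n) : ZMod n → ℤ :=
  (if l = ℓ y then Pi.single y 1 else 0) -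
    (if iv l = ℓ (stp σ l y) then Pi.single (stp σ l y) 1 else 0)

theorem vol_iv (l : α × Bool) (y : ZMod n) : vol ℓ σ (iv l) (stp σ l y) = - vol ℓ σ l y := by
  unfold vol
  rw [stp_iv, iv_iv]
  abel

/-- end point -/
def act : List (α × Bool) → ZMod n → ZMod n
  | [], x => x
  | l :: L, x => stp σ l (act L x)

/-- crossing vector -/
def ch : List (α × Bool) → ZMod n → (ZMod n → ℤ)
  | [], _ => 0
  | l :: L, x => ch L x + vol ℓ σ l (act σ L x)

variable {A : Type*} [AddCommGroup A] (ν : (ZMod n → ℤ) →+ A)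

/-- the permutation of a generator -/
def gen (a : α) : Equiv.Perm (ZMod n × A) where
  toFun z := (σ a z.1, z.2 + ν (vol ℓ σ (a, true) z.1))
  invFun z := ((σ a).symm z.1, z.2 + ν (vol ℓ σ (a, false) z.1))
  left_inv := by
    rintro ⟨x, c⟩
    have h := vol_iv ℓ σ (a, true) x
    have h1 : vol ℓ σ (a, false) (σ a x) = - vol ℓ σ (a, true) x := h
    simp only [Equiv.symm_apply_apply, h1, map_neg, add_neg_cancel_right]
  right_inv := by
    rintro ⟨x, c⟩
    have h := vol_iv ℓ σ (a, false) x
    have h1 : vol ℓ σ (a, true) ((σ a).symm x) = - vol ℓ σ (a, false) x := h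
    simp only [Equiv.apply_symm_apply, h1, map_neg, add_neg_cancel_right]

/-- the representation -/
def Psi : FreeGroup α →* Equiv.Perm (ZMod n × A) := FreeGroup.lift (gen ℓ σ ν)

theorem Psi_mk (L : List (α × Bool)) (x : ZMod n) (c : A) :
    Psi ℓ σ ν (FreeGroup.mk L) (x, c) = (act σ L x, c + ν (ch ℓ σ L x)) := by
  rw [Psi, FreeGroup.lift_mk]
  induction L with
  | nil => simp [act, ch]
  | cons l L ih =>
    rw [List.map_cons, List.prod_cons, Equiv.Perm.mul_apply, ih]
    obtain ⟨a, b⟩ := l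
    cases b with
    | true =>
      show (σ a (act σ L x), _) = (stp σ (a, true) (act σ L x), _)
      simp only [stp, ch, map_add, add_assoc]
      rfl
    | false =>
      show ((σ a).symm (act σ L x), _) = (stp σ (a, false) (act σ L x), _)
      simp only [stp, ch, map_add, add_assoc]
      rfl

/-- the word read along the cycle -/
def wd (x : ZMod n) : ℕ → List (α × Bool)
  | 0 => []
  | k + 1 => ℓ (x + k) :: wd x k

theorem wd_succ' (x : ZMod n) (k : ℕ) : wd ℓ x (k + 1) = wd ℓ (x + 1) k ++ [ℓ x] := by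
  induction k with
  | zero => simp [wd]
  | succ k ih =>
    rw [wd, ih, wd, List.cons_append]
    congr 2
    push_cast
    ring

theorem wd_length (x : ZMod n) (k : ℕ) : (wd ℓ x k).length = k := by
  induction k with
  | zero => rfl
  | succ k ih => rw [wd, List.length_cons, ih]

theorem conj_wd (x : ZMod n) : IsConj (FreeGroup.mk (wd ℓ x n)) (FreeGroup.mk (wd ℓ (x + 1) n)) := by
  rw [isConj_iff]
  refine ⟨FreeGroup.mk [ℓ x], ?_⟩
  have h1 : FreeGroup.mk (wd ℓ x (n + 1)) = FreeGroup.mk [ℓ x] * FreeGroup.mk (wd ℓ x n) := by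
    rw [wd, FreeGroup.mul_mk]
    simp
  have h2 : FreeGroup.mk (wd ℓ x (n + 1)) = FreeGroup.mk (wd ℓ (x + 1) n) * FreeGroup.mk [ℓ x] := by
    rw [wd_succ', FreeGroup.mul_mk]
  rw [← h1, h2]
  group

theorem conj_wd_nat (k : ℕ) : IsConj (FreeGroup.mk (wd ℓ 0 n)) (FreeGroup.mk (wd ℓ (k : ZMod n) n)) := by
  induction k with
  | zero =>
    rw [Nat.cast_zero]
  | succ k ih =>
    push_cast
    exact ih.trans (conj_wd ℓ k)

theorem conj_wd_all (x : ZMod n) : IsConj (FreeGroup.mk (wd ℓ 0 n)) (FreeGroup.mk (wd ℓ x n)) := by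
  have := conj_wd_nat ℓ x.val
  rwa [ZMod.natCast_zmod_val] at this

variable (hσ : ∀ i, stp σ (ℓ i) i = i + 1)
include hσ

omit [DecidableEq α] in
theorem act_wd (x : ZMod n) (k : ℕ) : act σ (wd ℓ x k) x = x + k := by
  induction k with
  | zero => simp [wd, act]
  | succ k ih =>
    rw [wd, act, ih, hσ]
    push_cast
    ring

theorem vol_cycle (hred : ∀ i, ℓ (i + 1) ≠ iv (ℓ i)) (y : ZMod n) :
    vol ℓ σ (ℓ y) y = Pi.single y 1 := by
  unfold vol
  rw [if_pos rfl, hσ, if_neg (fun h => hred y h.symm), sub_zero]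

theorem ch_wd (hred : ∀ i, ℓ (i + 1) ≠ iv (ℓ i)) (x : ZMod n) (k : ℕ) :
    ch ℓ σ (wd ℓ x k) x = ∑ j ∈ Finset.range k, Pi.single (x + (j : ZMod n)) 1 := by
  induction k with
  | zero => simp [wd, ch]
  | succ k ih =>
    rw [wd, ch, ih, act_wd ℓ σ hσ, vol_cycle ℓ σ hσ hred, Finset.sum_range_succ]

theorem ch_wd_n (hred : ∀ i, ℓ (i + 1) ≠ iv (ℓ i)) : ch ℓ σ (wd ℓ 0 n) 0 = fun _ => 1 := by
  rw [ch_wd ℓ σ hσ hred]
  funext i
  rw [Finset.sum_apply, Finset.sum_eq_single i.val]
  · simp
  · intro j hj hne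
    rw [Pi.single_apply, if_neg]
    intro h
    apply hne
    rw [h, zero_add, ZMod.val_natCast, Nat.mod_eq_of_lt (Finset.mem_range.1 hj)]
  · intro h
    exact absurd (Finset.mem_range.2 (ZMod.val_lt i)) h

omit hσ in
theorem vol_abs (l : α × Bool) (y i : ZMod n) : |vol ℓ σ l y i| ≤ 1 := by
  have key : ∀ (c : Prop) [Decidable c] (z : ZMod n),
      0 ≤ (if c then (Pi.single z 1 : ZMod n → ℤ) else 0) i ∧
      (if c then (Pi.single z 1 : ZMod n → ℤ) else 0) i ≤ 1 := by
    intro c _ z
    by_cases hc : c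
    · rw [if_pos hc, Pi.single_apply]
      split_ifs <;> norm_num
    · rw [if_neg hc]
      simp
  unfold vol
  rw [Pi.sub_apply, abs_le]
  have h1 := key (l = ℓ y) y
  have h2 := key (iv l = ℓ (stp σ l y)) (stp σ l y)
  constructor <;> linarith [h1.1, h1.2, h2.1, h2.2]

omit hσ in
theorem vol_sum (l : α × Bool) (y : ZMod n) : ∑ i, vol ℓ σ l y i
    = (if l = ℓ y then 1 else 0) - (if iv l = ℓ (stp σ l y) then 1 else 0) := by
  unfold vol
  simp only [Pi.sub_apply, Finset.sum_sub_distrib]
  congr 1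
  · split_ifs <;> simp
  · split_ifs <;> simp

omit hσ in
theorem ch_abs (L : List (α × Bool)) (x i : ZMod n) : |ch ℓ σ L x i| ≤ L.length := by
  induction L with
  | nil => simp [ch]
  | cons l L ih =>
    rw [ch, Pi.add_apply, List.length_cons]
    push_cast
    exact (abs_add_le _ _).trans (add_le_add ih (vol_abs ℓ σ l _ i))

omit hσ in
theorem ch_sum_le (L : List (α × Bool)) (x : ZMod n) : ∑ i, ch ℓ σ L x i ≤ L.length := by
  induction L with
  | nil => simp [ch]
  | cons l L ih =>
    simp only [ch, Pi.add_apply, Finset.sum_add_distrib, vol_sum, List.length_cons]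
    push_cast
    split_ifs <;> linarith

omit hσ in
theorem ch_sum_ge (L : List (α × Bool)) (x : ZMod n) : -(L.length : ℤ) ≤ ∑ i, ch ℓ σ L x i := by
  induction L with
  | nil => simp [ch]
  | cons l L ih =>
    simp only [ch, Pi.add_apply, Finset.sum_add_distrib, vol_sum, List.length_cons]
    push_cast
    split_ifs <;> linarith

theorem forward (L : List (α × Bool)) (x : ZMod n) (h : ∑ i, ch ℓ σ L x i = L.length) :
    L = wd ℓ x L.length ∧ act σ L x = x + L.length := by
  induction L with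
  | nil => simp [wd, act]
  | cons l L ih =>
    have h1 := ch_sum_le ℓ σ L x
    simp only [ch, Pi.add_apply, Finset.sum_add_distrib, vol_sum, List.length_cons] at h
    push_cast at h
    have h2 : l = ℓ (act σ L x) := by
      by_contra hne
      rw [if_neg hne] at h
      split_ifs at h <;> linarith
    have h3 : ∑ i, ch ℓ σ L x i = L.length := by
      apply le_antisymm h1
      rw [if_pos h2] at h
      split_ifs at h <;> linarith
    obtain ⟨h4, h5⟩ := ih h3
    rw [List.length_cons]
    constructor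
    · rw [wd, ← h5, ← h2, ← h4]
    · rw [act, h2, hσ, h5]
      push_cast
      ring

theorem backward (L : List (α × Bool)) (x : ZMod n) (h : ∑ i, ch ℓ σ L x i = -(L.length : ℤ)) :
    FreeGroup.mk L = (FreeGroup.mk (wd ℓ (x - L.length) L.length))⁻¹ ∧
      act σ L x = x - L.length := by
  induction L with
  | nil =>
    constructor
    · simp [wd, ← FreeGroup.one_eq_mk]
    · simp [act]
  | cons l L ih =>
    have h1 := ch_sum_ge ℓ σ L x
    simp only [ch, Pi.add_apply, Finset.sum_add_distrib, vol_sum, List.length_cons] at h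
    push_cast at h
    have h2 : iv l = ℓ (stp σ l (act σ L x)) := by
      by_contra hne
      rw [if_neg hne] at h
      split_ifs at h <;> linarith
    have h3 : ∑ i, ch ℓ σ L x i = -(L.length : ℤ) := by
      apply le_antisymm _ h1
      rw [if_pos h2] at h
      split_ifs at h <;> linarith
    obtain ⟨h4, h5⟩ := ih h3
    -- the end point
    have h6 : stp σ l (act σ L x) = act σ L x - 1 := by
      have h7 := hσ (stp σ l (act σ L x))
      rw [← h2, stp_iv] at h7
      rw [eq_sub_iff_add_eq]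
      exact h7.symm
    rw [List.length_cons]
    have h8 : x - ((L.length + 1 : ℕ) : ZMod n) + 1 = x - L.length := by
      push_cast; ring
    constructor
    · rw [wd_succ', h8, ← FreeGroup.mul_mk, mul_inv_rev, ← h4]
      have h9 : FreeGroup.mk (l :: L) = FreeGroup.mk [l] * FreeGroup.mk L := by
        rw [FreeGroup.mul_mk]; rfl
      rw [h9]
      congr 1
      have h10 : x - ((L.length + 1 : ℕ) : ZMod n) = stp σ l (act σ L x) := by
        rw [h6, h5]; push_cast; ring
      rw [h10, ← h2, FreeGroup.inv_mk]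
      simp [FreeGroup.invRev, iv]
    · rw [act, h6, h5]
      push_cast
      ring

/-- a word of length at most `n` which moves a point as the translation does is a rotation -/
theorem rotation (V : List (α × Bool)) (hV : V.length ≤ n) (x : ZMod n)
    (h : ∀ i, ((ch ℓ σ V x i : ℤ) : ZMod (2 * n + 1)) = 1) :
    IsConj (FreeGroup.mk (wd ℓ 0 n)) (FreeGroup.mk V) := by
  have hn : 0 < n := Nat.pos_of_ne_zero (NeZero.ne n)
  have h1 : ∀ i, ch ℓ σ V x i = 1 := by
    intro i
    have h2 : (((ch ℓ σ V x i - 1 : ℤ)) : ZMod (2 * n + 1)) = 0 := by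
      push_cast
      rw [h i, sub_self]
    rw [ZMod.intCast_zmod_eq_zero_iff_dvd] at h2
    have h3 := ch_abs ℓ σ V x i
    have h4 : |ch ℓ σ V x i - 1| < ((2 * n + 1 : ℕ) : ℤ) := by
      have h5 : (V.length : ℤ) ≤ n := by exact_mod_cast hV
      have h6 : (0 : ℤ) < n := by exact_mod_cast hn
      rw [abs_le] at h3
      rw [abs_lt]
      push_cast
      constructor <;> linarith [h3.1, h3.2]
    have h5 := Int.eq_zero_of_abs_lt_dvd h2 h4
    linarith
  have h2 : ∑ i, ch ℓ σ V x i = n := by
    simp [h1]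
  have h3 : (V.length : ℤ) = n := by
    apply le_antisymm
    · exact_mod_cast hV
    · rw [← h2]; exact ch_sum_le ℓ σ V x
  obtain ⟨h4, -⟩ := forward ℓ σ hσ V x (by rw [h2, h3])
  have h5 : V.length = n := by exact_mod_cast h3
  rw [h5] at h4
  rw [h4]
  exact conj_wd_all ℓ x

end core

section sep

variable {X : Type*}

theorem exists_ell (U : List (X × Bool)) (hU : FreeGroup.IsCyclicallyReduced U) (n : ℕ)
    [NeZero n] (hn : U.length = n) :
    ∃ ℓ : ZMod n → X × Bool, (∀ i, ℓ (i + 1) ≠ iv (ℓ i)) ∧ U = wd ℓ 0 n := by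
  have hlen : ∀ i : ZMod n, i.val < U.reverse.length := by
    intro i
    rw [List.length_reverse, hn]
    exact ZMod.val_lt i
  let ℓ : ZMod n → X × Bool := fun i => U.reverse[i.val]'(hlen i)
  have hn0 : 0 < n := Nat.pos_of_ne_zero (NeZero.ne n)
  refine ⟨ℓ, ?_, ?_⟩
  · intro i hi
    have hval : (i + 1).val = (i.val + 1) % n := by
      rw [ZMod.val_add, ZMod.val_one_eq_one_mod, Nat.add_mod_mod]
    have e1 : (ℓ (i + 1)).1 = (ℓ i).1 := by rw [hi]; rfl
    have e2 : (ℓ (i + 1)).2 = !(ℓ i).2 := by rw [hi]; rfl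
    have hlt := ZMod.val_lt i
    have g1 : ℓ i = U[n - 1 - i.val]'(by omega) := by
      simp only [ℓ, List.getElem_reverse, hn]
    by_cases hc : i.val + 1 < n
    · rw [Nat.mod_eq_of_lt hc] at hval
      have g2 : ℓ (i + 1) = U[n - 1 - (i.val + 1)]'(by omega) := by
        simp only [ℓ, List.getElem_reverse, hn, hval]
      have hch := (List.isChain_iff_getElem.1 hU.1) (n - 1 - (i.val + 1)) (by omega)
      have hidx : n - 1 - (i.val + 1) + 1 = n - 1 - i.val := by omega
      simp only [hidx] at hch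
      rw [← g1, ← g2] at hch
      have h3 := hch e1
      rw [e2] at h3
      cases h : (ℓ i).2 <;> simp [h] at h3
    · have hc' : i.val + 1 = n := by omega
      rw [hc', Nat.mod_self] at hval
      have g2 : ℓ (i + 1) = U[n - 1]'(by omega) := by
        simp only [ℓ, List.getElem_reverse, hn, hval, Nat.sub_zero]
      have g3 : ℓ i = U[0]'(by omega) := by
        rw [g1]; congr 1; omega
      have hlast : ℓ (i + 1) ∈ U.getLast? := by
        rw [List.getLast?_eq_getElem?, hn, g2]
        simp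
      have hhead : ℓ i ∈ U.head? := by
        rw [List.head?_eq_getElem?, g3]
        simp
      have h3 := hU.2 _ hlast _ hhead e1
      rw [e2] at h3
      cases h : (ℓ i).2 <;> simp [h] at h3
  · have key : ∀ k, k ≤ n → wd ℓ 0 k = (U.reverse.take k).reverse := by
      intro k
      induction k with
      | zero => intro _; simp [wd]
      | succ k ih =>
        intro hk
        rw [wd, ih (by omega)]
        have hk' : k < U.reverse.length := by rw [List.length_reverse, hn]; omega
        rw [List.take_succ_eq_append_getElem hk', List.reverse_append]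
        have hv : ((0 : ZMod n) + (k : ZMod n)).val = k := by
          rw [zero_add, ZMod.val_natCast, Nat.mod_eq_of_lt (by omega)]
        simp only [List.reverse_cons, List.reverse_nil, List.nil_append, List.singleton_append]
        congr 1
        simp only [ℓ, hv]
    rw [key n le_rfl, List.take_of_length_le (by rw [List.length_reverse, hn]),
      List.reverse_reverse]

theorem exists_cyc (u : FreeGroup X) : ∃ U : List (X × Bool),
    FreeGroup.IsCyclicallyReduced U ∧ IsConj (FreeGroup.mk U) u := by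
  classical
  refine ⟨FreeGroup.reduceCyclically u.toWord,
    FreeGroup.reduceCyclically.isCyclicallyReduced FreeGroup.isReduced_toWord, ?_⟩
  rw [isConj_iff]
  refine ⟨FreeGroup.mk (FreeGroup.reduceCyclically.conjugator u.toWord), ?_⟩
  rw [FreeGroup.inv_mk, FreeGroup.mul_mk, FreeGroup.mul_mk,
    FreeGroup.reduceCyclically.conj_conjugator_reduceCyclically, FreeGroup.mk_toWord]

theorem sep_words (U V : List (X × Bool)) (hU : FreeGroup.IsCyclicallyReduced U)
    (hVU : V.length ≤ U.length) (hU0 : U ≠ [])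
    (h : ¬ IsConj (FreeGroup.mk U) (FreeGroup.mk V)) :
    ∃ (Q : Type) (_ : Group Q) (_ : Finite Q) (ψ : FreeGroup X →* Q),
      ¬ IsConj (ψ (FreeGroup.mk U)) (ψ (FreeGroup.mk V)) := by
  classical
  obtain ⟨n, hn⟩ : ∃ n, U.length = n := ⟨_, rfl⟩
  have hn0 : n ≠ 0 := by
    rw [← hn]
    exact fun h => hU0 (List.length_eq_zero_iff.1 h)
  have : NeZero n := ⟨hn0⟩
  obtain ⟨ℓ, hred, hUw⟩ := exists_ell U hU n hn
  obtain ⟨σ, hσ⟩ := exists_sigma ℓ hred
  let A := ZMod n → ZMod (2 * n + 1)
  let ν : (ZMod n → ℤ) →+ A :=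
    { toFun := fun f i => ((f i : ℤ) : ZMod (2 * n + 1))
      map_zero' := by funext i; exact Int.cast_zero
      map_add' := by intro f g; funext i; exact Int.cast_add _ _ }
  let Ψ := Psi ℓ σ ν
  refine ⟨Ψ.range, inferInstance, inferInstance, Ψ.rangeRestrict, ?_⟩
  intro hc
  rw [isConj_iff] at hc
  obtain ⟨⟨_, g, rfl⟩, hg⟩ := hc
  have hg' : Ψ g * Ψ (FreeGroup.mk U) * (Ψ g)⁻¹ = Ψ (FreeGroup.mk V) := by
    have := congrArg (Subgroup.subtype _) hg
    exact this
  obtain ⟨G, rfl⟩ : ∃ G, FreeGroup.mk G = g := ⟨g.toWord, FreeGroup.mk_toWord⟩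
  apply h
  rw [hUw]
  apply rotation ℓ σ hσ V (by rw [← hn]; exact hVU) (act σ G 0)
  intro i
  -- evaluate at the image of (0, 0)
  have h1 : Ψ (FreeGroup.mk U) ((0 : ZMod n), (0 : A)) = (0, fun _ => 1) := by
    show Psi ℓ σ ν (FreeGroup.mk U) ((0 : ZMod n), (0 : A)) = _
    rw [Psi_mk, hUw, act_wd ℓ σ hσ, ch_wd_n ℓ σ hσ hred]
    apply Prod.ext
    · simp
    · funext j
      simp [ν]
  have h2 : Ψ (FreeGroup.mk V) (Ψ (FreeGroup.mk G) ((0 : ZMod n), (0 : A)))
      = Ψ (FreeGroup.mk G) (0, fun _ => 1) := by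
    rw [← hg', ← h1]
    simp [Equiv.Perm.mul_apply]
  have h3 : Ψ (FreeGroup.mk G) ((0 : ZMod n), (0 : A))
      = (act σ G 0, (0 : A) + ν (ch ℓ σ G 0)) := Psi_mk ℓ σ ν G 0 0
  have h4 : Ψ (FreeGroup.mk G) ((0 : ZMod n), (fun _ => 1 : A))
      = (act σ G 0, (fun _ => 1 : A) + ν (ch ℓ σ G 0)) := Psi_mk ℓ σ ν G 0 _
  rw [h3, h4] at h2
  have h5 : Ψ (FreeGroup.mk V) (act σ G 0, (0 : A) + ν (ch ℓ σ G 0))
      = (act σ V (act σ G 0), (0 : A) + ν (ch ℓ σ G 0) + ν (ch ℓ σ V (act σ G 0))) :=
    Psi_mk ℓ σ ν V _ _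
  rw [h5] at h2
  have h6 := (Prod.ext_iff.1 h2).2
  have h7 : ν (ch ℓ σ V (act σ G 0)) = (fun _ => 1 : A) := by
    have h8 : (0 : A) + ν (ch ℓ σ G 0) + ν (ch ℓ σ V (act σ G 0))
        = (fun _ => 1 : A) + ν (ch ℓ σ G 0) := h6
    rw [zero_add, add_comm] at h8
    exact add_right_cancel h8
  exact congrFun h7 i

/-- free groups are conjugacy separable -/
theorem free_conj_sep (u v : FreeGroup X) (h : ¬ IsConj u v) :
    ∃ (Q : Type) (_ : Group Q) (_ : Finite Q) (ψ : FreeGroup X →* Q),
      ¬ IsConj (ψ u) (ψ v) := by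
  obtain ⟨U, hU, hUu⟩ := exists_cyc u
  obtain ⟨V, hV, hVv⟩ := exists_cyc v
  have hUV : ¬ IsConj (FreeGroup.mk U) (FreeGroup.mk V) :=
    fun h' => h (hUu.symm.trans (h'.trans hVv))
  have tr : ∀ (Q : Type) [Group Q] (ψ : FreeGroup X →* Q),
      IsConj (ψ u) (ψ v) → IsConj (ψ (FreeGroup.mk U)) (ψ (FreeGroup.mk V)) := by
    intro Q _ ψ h'
    exact (ψ.map_isConj hUu).trans (h'.trans (ψ.map_isConj hVv).symm)
  rcases le_total V.length U.length with hle | hle
  · have hU0 : U ≠ [] := by
      rintro rfl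
      have : V = [] := List.length_eq_zero_iff.1 (by simpa using hle)
      subst this
      exact hUV (IsConj.refl _)
    obtain ⟨Q, iQ, fQ, ψ, hψ⟩ := sep_words U V hU hle hU0 hUV
    exact ⟨Q, iQ, fQ, ψ, fun h' => hψ (tr Q ψ h')⟩
  · have hV0 : V ≠ [] := by
      rintro rfl
      have : U = [] := List.length_eq_zero_iff.1 (by simpa using hle)
      subst this
      exact hUV (IsConj.refl _)
    obtain ⟨Q, iQ, fQ, ψ, hψ⟩ := sep_words V U hV hle hV0 (fun h' => hUV h'.symm)
    exact ⟨Q, iQ, fQ, ψ, fun h' => hψ (tr Q ψ h').symm⟩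

end sep

end Pool.Agent.H18FS
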